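import Pool.Agent.Y581.WN.StmB

/-!
WN-ONEK (job 8013): one error of a reduction, by polylogarithmically many changes.
Adapted from `Pool.Agent.Y626.WG.One` (helper626).
-/

set_option autoImplicit false
set_option linter.all false

namespace Pool.Agent.Y664.WN

open Filter Pool.Agent.NPC Pool.Agent.H622R2 Pool.Agent.H620R2.Gauge Pool.Agent.TH678.GC
  Pool.Agent.H591R3.PHG Pool.Agent.TH678.RS Pool.Agent.H622R2.Exp Pool.Agent.Y626.WG
  Pool.Agent.Y581.WN

theorem t_onek (h1 : S_hidk) (h2 : S_chk) (h3 : @S_matk) (h4 : S_selk) (h5 : S_key) (h6 : S_wk)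
    (h7 : S_numk) (h8 : S_cost) : S_onek := by
  classical
  intro t M σ G ht
  obtain ⟨b, hb⟩ := M.out_length
  obtain ⟨d₂, _, hd₂⟩ := YAux.poly_bound b
  obtain ⟨qb, hqb⟩ := M.out_local
  obtain ⟨k, hk⟩ : ∃ k, k = kk M := ⟨_, rfl⟩
  have hk' : k = 2 * pe M + 3 := hk
  obtain ⟨Cw, hCw⟩ := h6 k t
  obtain ⟨C, hC⟩ := h8 t k
  refine ⟨C, Polynomial.C Cw * (2 * Polynomial.X) ^ 512 *
    (Polynomial.X + (Polynomial.X + 1 + 11) + 512 * (Polynomial.X + 1) + 1), ?_⟩
  filter_upwards [h7 t k σ.length Cw G d₂, hC, eventually_ge_atTop 1] with n hn hCn hn1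
  intro B
  obtain ⟨u, hu⟩ : ∃ u, u = Nat.log 2 n + 1 := ⟨_, rfl⟩
  obtain ⟨u', hu'⟩ : ∃ u', u' = Nat.log 2 u + 1 := ⟨_, rfl⟩
  obtain ⟨hu1, huu, hG, hsν, hsz, hnum⟩ := hn u u' hu hu'
  have hcost := hCn u u' hu hu'
  obtain ⟨ν, hν⟩ : ∃ ν, ν = 512 * u := ⟨_, rfl⟩
  obtain ⟨c, hc⟩ : ∃ c, c = u' + 11 := ⟨_, rfl⟩
  obtain ⟨s, hs0⟩ : ∃ s, s = 512 * u * k + 1 := ⟨_, rfl⟩
  have hsν' : s ≤ 2 ^ ν := by
    rw [hs0, hν]
    have : 0 < 2 ^ (512 * u') := by positivity
    omega
  -- the hard formula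
  obtain ⟨as, has1, has2, s0, hs⟩ := core t (n := 8 * u') (u := u') (by omega) (le_refl _)
  have has2' : ∀ a ∈ as, a ≤ 512 * u' := fun a ha => (has2 a ha).trans (by omega)
  obtain ⟨τ, rest, hτ⟩ : ∃ τ rest, as.reverse = τ :: rest := by
    rcases h : as.reverse with _ | ⟨τ, rest⟩
    · exfalso
      have := congrArg List.length h
      rw [List.length_reverse, has1, List.length_nil] at this
      omega
    · exact ⟨τ, rest, rfl⟩
  have hτ1 : τ ≤ 512 * u' := has2' τ (by rw [← List.mem_reverse, hτ]; exact List.mem_cons_self ..)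
  have hrest : ∀ a ∈ rest, a ≤ 512 * u' := fun a ha =>
    has2' a (by rw [← List.mem_reverse, hτ]; exact List.mem_cons_of_mem _ ha)
  have hrl : rest.length = t := by
    have := congrArg List.length hτ
    rw [List.length_reverse, has1, List.length_cons] at this
    omega
  have hτν : τ ≤ ν := by omega
  have hrestν : ∀ a ∈ rest, a ≤ ν := fun a ha => (hrest a ha).trans (by omega)
  -- the keys
  have hkey : ∀ j, ∃ κ : ℕ → Bool, ∀ w, Tup (2 ^ ν) k w →
      ¬ ∀ e < s, B ((w ++ [kp ν e]).flatMap (labn n c ν j)) = κ e := fun j =>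
    h5 B n k c ν s j (by rw [hν, hs0]; exact Nat.lt_succ_self _)
  choose κ hκ using hkey
  obtain ⟨x, hx⟩ : ∃ x : ℕ → Inst, x = fun j => hardk n k c ν j rest s (κ j) := ⟨_, rfl⟩
  have hxw : ∀ j, (x j).IsW (t + 1) ∧ (x j).param = 3 * k + 5 * t + 9 ∧
      sz (x j) ≤ Cw * 2 ^ ν * (n + c + ν + 1) := by
    intro j
    rw [hx]
    exact hCw n c ν j rest s (κ j) hrl hsν' hrestν
  have hxlen : ∀ j, (bits (x j)).length ≤ (Polynomial.C Cw * (2 * Polynomial.X) ^ 512 *
      (Polynomial.X + (Polynomial.X + 1 + 11) + 512 * (Polynomial.X + 1) + 1)).eval n := by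
    intro j
    rw [bits_length]
    refine (hxw j).2.2.trans ?_
    have e1 : (Polynomial.C Cw * (2 * Polynomial.X) ^ 512 *
      (Polynomial.X + (Polynomial.X + 1 + 11) + 512 * (Polynomial.X + 1) + 1)).eval n =
      Cw * (2 * n) ^ 512 * (n + (n + 1 + 11) + 512 * (n + 1) + 1) := by
      simp only [Polynomial.eval_mul, Polynomial.eval_add, Polynomial.eval_pow,
        Polynomial.eval_C, Polynomial.eval_X, Polynomial.eval_one, Polynomial.eval_ofNat]
    rw [e1]
    have e2 : 2 ^ ν ≤ (2 * n) ^ 512 := by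
      rw [hν, mul_comm 512 u, pow_mul]
      apply Nat.pow_le_pow_left
      rw [hu, pow_succ]
      have := Nat.pow_log_le_self 2 (show n ≠ 0 by omega)
      omega
    have e3 : u ≤ n + 1 := by
      rw [hu]
      have := Nat.log_le_self 2 n
      omega
    exact Nat.mul_le_mul (Nat.mul_le_mul_left _ e2) (by omega)
  have hfin : ∀ B' : Oracle, (∀ y ∉ Rgn n, B' y = B y) → {y | B y ≠ B' y}.Finite →
      {y | B y ≠ B' y}.ncard ≤ Nat.log 2 n ^ C → (∃ j, Badn t M σ G (x j) B') →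
      ∃ B' : Oracle, (∀ y ∉ Rgn n, B' y = B y) ∧
      {y | B y ≠ B' y}.Finite ∧ {y | B y ≠ B' y}.ncard ≤ Nat.log 2 n ^ C ∧
      ∃ x : Inst, x.IsW (t + 1) ∧ x.param = 3 * kk M + 5 * t + 9 ∧
        (bits x).length ≤ (Polynomial.C Cw * (2 * Polynomial.X) ^ 512 *
      (Polynomial.X + (Polynomial.X + 1 + 11) + 512 * (Polynomial.X + 1) + 1)).eval n ∧
        Badn t M σ G x B' := by
    intro B' g1 g2 g3 ⟨j, g4⟩
    refine ⟨B', g1, g2, g3, x j, (hxw j).1, ?_, hxlen j, g4⟩
    rw [← hk]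
    exact (hxw j).2.1
  by_cases hbad : ∃ j, Badn t M σ G (x j) B
  · refine hfin B (fun _ _ => rfl) ?_ ?_ hbad
    · have e : {y | B y ≠ B y} = ∅ := by ext y; simp
      rw [e]
      exact Set.finite_empty
    · have e : {y | B y ≠ B y} = ∅ := by ext y; simp
      rw [e, Set.ncard_empty]
      exact Nat.zero_le _
  have hgood : ∀ j, ∃ I : Inst, M.out B (pairBits σ (bits (x j))) = some (bits I) ∧
      I.IsA t ∧ I.param ≤ G := by
    intro j
    by_contra hcon
    refine hbad ⟨j, fun ⟨I, h1, h2, h3, _⟩ => hcon ⟨I, h1, h2, h3⟩⟩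
  choose I' hI1 hI2 hI3 using hgood
  -- the sizes
  have hlen : ∀ j, (pairBits σ (bits (x j))).length + 2 ≤ 2 ^ (2 * ν) := by
    intro j
    have h1 := (hxw j).2.2
    rw [length_pairBits, bits_length]
    have e : 2 * ν = 1024 * u := by omega
    rw [e]
    rw [hν, hc] at h1
    have e3 : n + (u' + 11) + 512 * u + 1 = n + (u' + 11) + 512 * u + 1 := rfl
    omega
  -- the questions
  have hQ : ∀ j, ∃ Q : Finset (List Bool), Q.card ≤ 2 ^ (2 * ν * pe M) ∧
      ∀ A' : Oracle, (∀ q ∈ Q, A' q = B q) →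
        M.out A' (pairBits σ (bits (x j))) = some (bits (I' j)) := by
    intro j
    obtain ⟨Q, h1, _, h3⟩ := hqb B (pairBits σ (bits (x j)))
    refine ⟨Q, h1.trans ((pe_spec M _).trans ?_), fun A' hA' => (h3 A' hA').trans (hI1 j)⟩
    rw [pow_mul]
    exact Nat.pow_le_pow_left (hlen j) _
  choose Q hQ1 hQ2 using hQ
  obtain ⟨Qa, hQa⟩ : ∃ Qa : Finset (List Bool), Qa = (Finset.range (2 ^ c)).biUnion Q := ⟨_, rfl⟩
  -- the choice of the subtrees
  have hQc : Qa.card + 2 ^ τ ≤ 2 ^ (ν * k) := by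
    have h1 : Qa.card ≤ 2 ^ c * 2 ^ (2 * ν * pe M) := by
      rw [hQa]
      refine Finset.card_biUnion_le.trans ?_
      refine (Finset.sum_le_sum fun j _ => hQ1 j).trans ?_
      rw [Finset.sum_const, Finset.card_range, smul_eq_mul]
    have h2 : (2 : ℕ) ^ c ≤ 2 ^ ν := Nat.pow_le_pow_right (by norm_num) (by omega)
    have h3 : (2 : ℕ) ^ τ ≤ 2 ^ ν := Nat.pow_le_pow_right (by norm_num) hτν
    have h4 : (2 : ℕ) ^ (ν * k) = 2 ^ ν * 2 ^ (2 * ν * pe M) * 2 ^ ν * 2 ^ ν := by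
      rw [← pow_add, ← pow_add, ← pow_add, hk']
      congr 1
      ring
    have h5 : 1 ≤ (2 : ℕ) ^ (2 * ν * pe M) := Nat.one_le_two_pow
    have h6 : 2 ≤ (2 : ℕ) ^ ν := by
      calc 2 = 2 ^ 1 := by norm_num
        _ ≤ 2 ^ ν := Nat.pow_le_pow_right (by norm_num) (by omega)
    rw [h4]
    generalize (2 : ℕ) ^ (2 * ν * pe M) = P at *
    generalize (2 : ℕ) ^ ν = W at *
    have h7 : 2 ^ c * P ≤ W * P := Nat.mul_le_mul_right _ h2
    have h8 : W * P + W ≤ W * P * W * W := by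
      have h9 : W ≤ W * P := Nat.le_mul_of_pos_right _ h5
      have h10 : W * P * 2 ≤ W * P * W := Nat.mul_le_mul_left _ h6
      have h11 : W * P * W ≤ W * P * W * W := Nat.le_mul_of_pos_right _ (by omega)
      omega
    omega
  obtain ⟨S, hS1, hS2⟩ := h4 n k c ν τ s rest (by omega) hsν' hrestν Qa hQc
  -- the values of the variables
  obtain ⟨m, hm⟩ : ∃ m, m = 1024 * u * d₂ * G := ⟨_, rfl⟩
  have hdec : ∀ (j s' : ℕ), ∃ d : List Bool → List ℕ, s' ≤ G →
      (∀ w, Tup (I' j).labels.length s' (d w)) ∧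
      ∀ a, Tup (I' j).labels.length s' a → ∃ w : List Bool, w.length ≤ m ∧ d w = a := by
    intro j s'
    by_cases hs' : s' ≤ G
    · have hN : 1 ≤ (I' j).labels.length := List.length_pos_iff.2 (hI2 j).1
      have hNm : (I' j).labels.length ^ s' ≤ 2 ^ m := by
        have h1 := hb _ _ _ (hI1 j)
        have h2 := (hd₂ (pairBits σ (bits (x j))).length).trans
          (Nat.pow_le_pow_left (hlen j) d₂)
        have h3 := labels_lt (I' j)
        have h4 : (I' j).labels.length ≤ 2 ^ (2 * ν * d₂) := by rw [pow_mul]; omega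
        refine (Nat.pow_le_pow_left h4 s').trans ?_
        rw [← pow_mul]
        refine Nat.pow_le_pow_right (by norm_num) ?_
        have e : 2 * ν * d₂ = 1024 * u * d₂ := by rw [hν]; ring
        rw [e, hm]
        exact Nat.mul_le_mul_left _ hs'
      obtain ⟨d, hd1, hd2⟩ := exists_dec hN hNm
      exact ⟨d, fun _ => ⟨hd1, hd2⟩⟩
    · exact ⟨fun _ => [], fun h => absurd h hs'⟩
  choose d hd using hdec
  -- the decision trees
  subst hc
  obtain ⟨A, hA⟩ : ∃ A : (Idx (Fin (2 ^ (u' + 11))) (pw as) → Bool) → Oracle, A = fun z =>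
    orck B n (u' + 11) ν τ s rest S κ (fo (u' + 11) as (val s0 z)) := ⟨_, rfl⟩
  obtain ⟨Leaf, hLeaf⟩ : ∃ Leaf : List (List Bool) → List Bool →
      (Idx (Fin (2 ^ (u' + 11))) (pw as) → Bool) → Bool, Leaf =
    fun ws y z => @decide ((I' y.length).atoms.map ((I' y.length).atom (A z)
      (dcd (d y.length) (I' y.length).blocks ws)) ∈ (I' y.length).acc)
      (Classical.propDecidable _) := ⟨_, rfl⟩
  have hDT : ∀ y : List Bool, Pool.Agent.H676.DTr (2 ^ (2 * u')) (Leaf (ass t y).1 (ass t y).2) := by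
    intro y
    have g1 := h3 (u' + 11) as s0 B n ν τ s rest S κ (I' (ass t y).2.length)
      (dcd (d (ass t y).2.length) (I' (ass t y).2.length).blocks (ass t y).1)
    rw [hLeaf, hA]
    exact g1.mono (((length_le_param _).trans (hI3 _)).trans hG)
  obtain ⟨z, j, hzj⟩ := hs m (2 ^ (u' + 11)) (fun y => Leaf (ass t y).1 (ass t y).2)
    (fun y _ => hDT y)
    (fun j => List.replicate j.val true) (fun j => by
      rw [List.length_replicate]; exact j.2.le) (by rw [hm]; exact hnum)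
  have hch := h2 B n k (u' + 11) ν τ s rest S κ (fo (u' + 11) as (val s0 z)) hS1 (by omega)
  have hcost' := hcost τ rest hrl hτ1 hrest
  rw [← hs0] at hcost'
  have eA : A z = orck B n (u' + 11) ν τ s rest S κ (fo (u' + 11) as (val s0 z)) := by rw [hA]
  rw [← eA] at hch
  refine hfin (A z) hch.1 hch.2.1 (hch.2.2.trans hcost') ⟨j.val, ?_⟩
  rintro ⟨I, g1, g2, g3, g4⟩
  have g5 : M.out (A z) (pairBits σ (bits (x j.val))) = some (bits (I' j.val)) := by
    refine hQ2 j.val _ fun q hq => ?_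
    have hq' := hS2 q (by rw [hQa]; exact Finset.mem_biUnion.2 ⟨j.val, Finset.mem_range.2 j.2, hq⟩)
    rw [eA]
    unfold orck
    rw [dif_neg hq'.1, dif_neg hq'.2]
  have g6 : I = I' j.val := by
    have h7 := g1.symm.trans g5
    exact bits_injective (Option.some.inj h7)
  subst g6
  have g7 : (x j.val).Sat (A z) ↔ Tr (pw as) (val s0 z) j = false := by
    rw [Tr_fo (le_refl _) as (val s0 z) j, hτ, eA, hx]
    obtain ⟨r, rs, hr⟩ : ∃ r rs, rest = r :: rs := by
      rcases rest with _ | ⟨r, rs⟩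
      · rw [List.length_nil] at hrl
        omega
      · exact ⟨r, rs, rfl⟩
    rw [hr]
    refine h1 B n k (u' + 11) ν τ j.val S hS1 (by omega) j.2 r rs s κ ?_ ?_ ?_ _
    · rw [← hr]
      exact hrestν
    · have h9 : 2 ^ r ≤ 2 ^ (512 * u') :=
        Nat.pow_le_pow_right (by norm_num) (hrest r (by rw [hr]; exact List.mem_cons_self ..))
      rw [hs0, hν]
      omega
    · exact hκ j.val
  have g8 : (QF m (fun y => Leaf (ass t y).1 (ass t y).2) t true
      (List.replicate j.val true) z = true ↔ (I' j.val).Sat (A z)) := by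
    refine sat_qf (hI2 j.val) (d j.val) (fun s' hs' =>
      hd j.val s' ((block_le_param _ hs').trans (hI3 _))) Leaf _ z fun ws => ?_
    rw [hLeaf]
    simp only [List.length_replicate, decide_eq_true_eq]
  rw [g4.trans g8.symm, hzj] at g7
  cases h9 : Tr (pw as) (val s0 z) j <;> simp [h9] at g7

end Pool.Agent.Y664.WN
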